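import Mathlib

open SimpleGraph

namespace Pool.Agent.Results.MP_50682e_co.ThetaGraphs

/-- `G` is saturated for the family of the cycles `C_ℓ`, `ℓ ∈ I` -/
def IsSat {V : Type} (I : Set ℕ) (G : SimpleGraph V) : Prop :=
  (∀ l ∈ I, ¬ (cycleGraph l ⊑ G)) ∧
    ∀ x y : V, x ≠ y → ¬ G.Adj x y → ∃ l ∈ I, cycleGraph l ⊑ (G ⊔ edge x y)

/-- the saturation number: the least number of edges of a saturated graph on `n` vertices -/
noncomputable def sat (n : ℕ) (I : Set ℕ) : ℕ :=
  sInf {e | ∃ (V : Type) (_ : Fintype V) (G : SimpleGraph V),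
    Fintype.card V = n ∧ IsSat I G ∧ e = Nat.card G.edgeSet}

/-! ### cycles -/

/-- a closed path gives a cycle -/
theorem cycle_of_path {V : Type} {G : SimpleGraph V} {l : ℕ} (p : ℕ → V)
    (hinj : ∀ s t, s < l → t < l → p s = p t → s = t)
    (hadj : ∀ s, s + 1 < l → G.Adj (p s) (p (s + 1)))
    {x y : V} (h0 : p 0 = x) (h1 : p (l - 1) = y) (hxy : x ≠ y) :
    cycleGraph l ⊑ (G ⊔ edge x y) := by
  have key : ∀ u v : Fin l, (v - u).val = 1 → (G ⊔ edge x y).Adj (p u.val) (p v.val) := by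
    intro u v huv
    have hu := u.2
    have hv := v.2
    rw [Fin.sub_def] at huv
    simp only at huv
    rcases Nat.lt_or_ge (l - u.val + v.val) l with h | h
    · rw [Nat.mod_eq_of_lt h] at huv
      have h2 : v.val = 0 := by omega
      have h3 : u.val = l - 1 := by omega
      rw [h2, h3, h0, h1]
      refine Or.inr ?_
      rw [edge_adj]
      exact ⟨Or.inr ⟨rfl, rfl⟩, hxy.symm⟩
    · rw [Nat.mod_eq_sub_mod h, Nat.mod_eq_of_lt (by omega)] at huv
      have h2 : v.val = u.val + 1 := by omega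
      rw [h2]
      exact Or.inl (hadj u.val (by omega))
  refine ⟨⟨⟨fun u => p u.val, ?_⟩, ?_⟩⟩
  · intro u v huv
    rw [cycleGraph_adj'] at huv
    rcases huv with h | h
    · exact (key v u h).symm
    · exact key u v h
  · intro u v huv
    exact Fin.ext (hinj u.val v.val u.2 v.2 huv)

/-- the vertices of a cycle have two neighbours on the cycle -/
theorem two_nbrs {V : Type} {G : SimpleGraph V} {l : ℕ} (hl : 3 ≤ l)
    (f : Copy (cycleGraph l) G) (u : Fin l) :
    ∃ v w : Fin l, f.toHom v ≠ f.toHom w ∧ G.Adj (f.toHom u) (f.toHom v) ∧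
      G.Adj (f.toHom u) (f.toHom w) := by
  obtain ⟨n, rfl⟩ : ∃ n, l = n + 2 := ⟨l - 2, by omega⟩
  refine ⟨u + 1, u - 1, ?_, ?_, ?_⟩
  · intro h
    have h1 := f.injective' h
    have h2 : (1 : Fin (n + 2)) + 1 = 0 := by
      have : u + 1 + 1 = u := by rw [h1]; simp
      have h3 : u + (1 + 1) = u + 0 := by rw [← add_assoc, this, add_zero]
      exact add_left_cancel h3
    have h3 := congrArg Fin.val h2
    rw [Fin.val_add, Fin.val_one, Fin.val_zero, Nat.mod_eq_of_lt (by omega)] at h3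
    omega
  · refine f.toHom.map_adj ?_
    rw [cycleGraph_adj]
    right; simp
  · refine f.toHom.map_adj ?_
    rw [cycleGraph_adj]
    left; simp

/-! ### theta graphs -/

section theta

variable (m k : ℕ)

/-- vertices of the theta graph: two hubs and `m` paths with `k` inner vertices -/
abbrev TV : Type := Bool ⊕ (Fin m × Fin k)

variable {m k}

/-- the vertex at position `a` of the `i`-th path -/
def pt (i : Fin m) (a : ℕ) : TV m k :=
  if a = 0 then Sum.inl false else if h : a - 1 < k then Sum.inr (i, ⟨a - 1, h⟩) else Sum.inl true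

theorem pt_zero (i : Fin m) : (pt i 0 : TV m k) = Sum.inl false := by simp [pt]

theorem pt_mid (i : Fin m) {a : ℕ} (h1 : 1 ≤ a) (h2 : a ≤ k) :
    (pt i a : TV m k) = Sum.inr (i, ⟨a - 1, by omega⟩) := by
  unfold pt
  rw [if_neg (by omega), dif_pos (by omega)]

theorem pt_last (i : Fin m) : (pt i (k + 1) : TV m k) = Sum.inl true := by
  unfold pt
  rw [if_neg (by omega), dif_neg (by omega)]

theorem pt_cases {a : ℕ} (ha : a ≤ k + 1) : a = 0 ∨ (1 ≤ a ∧ a ≤ k) ∨ a = k + 1 := by omega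

theorem pt_inj {i j : Fin m} {a b : ℕ} (ha : a ≤ k + 1) (hb : b ≤ k + 1)
    (h : (pt i a : TV m k) = pt j b) : a = b ∧ (i = j ∨ a = 0 ∨ a = k + 1) := by
  rcases pt_cases ha with rfl | ⟨h1, h2⟩ | rfl <;> rcases pt_cases hb with rfl | ⟨h3, h4⟩ | rfl
  · exact ⟨rfl, Or.inr (Or.inl rfl)⟩
  · rw [pt_zero, pt_mid j h3 h4] at h; cases h
  · rw [pt_zero, pt_last] at h; cases h
  · rw [pt_zero, pt_mid i h1 h2] at h; cases h
  · rw [pt_mid i h1 h2, pt_mid j h3 h4] at h
    have h5 := Prod.mk.inj (Sum.inr_injective h)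
    have h6 := congrArg Fin.val h5.2
    simp only at h6
    exact ⟨by omega, Or.inl h5.1⟩
  · rw [pt_last, pt_mid i h1 h2] at h; cases h
  · rw [pt_zero, pt_last] at h; cases h
  · rw [pt_last, pt_mid j h3 h4] at h; cases h
  · exact ⟨rfl, Or.inr (Or.inr rfl)⟩

theorem exists_pt (i0 : Fin m) (x : TV m k) : ∃ i a, a ≤ k + 1 ∧ x = pt i a := by
  rcases x with b | ⟨i, a⟩
  · cases b with
    | false => exact ⟨i0, 0, by omega, (pt_zero i0).symm⟩
    | true => exact ⟨i0, k + 1, le_rfl, (pt_last i0).symm⟩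
  · refine ⟨i, a.val + 1, by omega, ?_⟩
    rw [pt_mid i (by omega) (by omega)]
    simp

variable (m k)

/-- the theta graph -/
def theta : SimpleGraph (TV m k) where
  Adj x y := ∃ i a, a ≤ k ∧ ((x = pt i a ∧ y = pt i (a + 1)) ∨ (y = pt i a ∧ x = pt i (a + 1)))
  symm := ⟨fun x y h => by
    obtain ⟨i, a, ha, h⟩ := h
    exact ⟨i, a, ha, h.symm⟩⟩
  loopless := ⟨fun x h => by
    obtain ⟨i, a, ha, h⟩ := h
    rcases h with ⟨h1, h2⟩ | ⟨h1, h2⟩
    · have := (pt_inj (by omega) (by omega) (h1.symm.trans h2)).1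
      omega
    · have := (pt_inj (by omega) (by omega) (h1.symm.trans h2)).1
      omega⟩

variable {m k}

theorem theta_adj (i : Fin m) {a : ℕ} (ha : a ≤ k) : (theta m k).Adj (pt i a) (pt i (a + 1)) :=
  ⟨i, a, ha, Or.inl ⟨rfl, rfl⟩⟩

/-- neighbours of an inner vertex -/
theorem nbr_mid {i : Fin m} {a : ℕ} (h1 : 1 ≤ a) (h2 : a ≤ k) {y : TV m k}
    (h : (theta m k).Adj (pt i a) y) : y = pt i (a - 1) ∨ y = pt i (a + 1) := by
  obtain ⟨j, b, hb, h⟩ := h
  rcases h with ⟨h3, h4⟩ | ⟨h3, h4⟩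
  · obtain ⟨h5, h6⟩ := pt_inj (by omega) (by omega) h3
    have h7 : i = j := by
      rcases h6 with h6 | h6 | h6
      · exact h6
      · omega
      · omega
    right
    rw [h4, h7, h5]
  · obtain ⟨h5, h6⟩ := pt_inj (by omega) (by omega) h4
    have h7 : i = j := by
      rcases h6 with h6 | h6 | h6
      · exact h6
      · omega
      · omega
    left
    rw [h3, h7, h5]
    simp

theorem nbr_zero {y : TV m k} (h : (theta m k).Adj (Sum.inl false) y) : ∃ j, y = pt j 1 := by
  obtain ⟨j, b, hb, h⟩ := h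
  rcases h with ⟨h3, h4⟩ | ⟨h3, h4⟩
  · rw [← pt_zero j] at h3
    have h5 := (pt_inj (by omega) (by omega) h3).1
    exact ⟨j, by rw [h4, ← h5]⟩
  · rw [← pt_zero j] at h4
    have h5 := (pt_inj (by omega) (by omega) h4).1
    omega

theorem nbr_last {y : TV m k} (h : (theta m k).Adj (Sum.inl true) y) : ∃ j, y = pt j k := by
  obtain ⟨j, b, hb, h⟩ := h
  rcases h with ⟨h3, h4⟩ | ⟨h3, h4⟩
  · rw [← pt_last j] at h3
    have h5 := (pt_inj (by omega) (by omega) h3).1
    omega
  · rw [← pt_last j] at h4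
    have h5 := (pt_inj (by omega) (by omega) h4).1
    exact ⟨j, by rw [h3]; congr 1; omega⟩

/-- the long cycle through the paths `i` and `j` -/
def q (i j : Fin m) (s : ℕ) : TV m k := if s ≤ k + 1 then pt i s else pt j (2 * k + 2 - s)

theorem q_inj {i j : Fin m} (hij : i ≠ j) {s t : ℕ} (hs : s < 2 * k + 2) (ht : t < 2 * k + 2)
    (h : (q i j s : TV m k) = q i j t) : s = t := by
  unfold q at h
  by_cases h1 : s ≤ k + 1
  · rw [if_pos h1] at h
    by_cases h2 : t ≤ k + 1
    · rw [if_pos h2] at h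
      exact (pt_inj h1 h2 h).1
    · rw [if_neg h2] at h
      obtain ⟨h3, h4⟩ := pt_inj h1 (by omega) h
      rcases h4 with h4 | h4 | h4
      · exact absurd h4 hij
      · omega
      · omega
  · rw [if_neg h1] at h
    by_cases h2 : t ≤ k + 1
    · rw [if_pos h2] at h
      obtain ⟨h3, h4⟩ := pt_inj (by omega) h2 h
      rcases h4 with h4 | h4 | h4
      · exact absurd h4.symm hij
      · omega
      · omega
    · rw [if_neg h2] at h
      have := (pt_inj (by omega) (by omega) h).1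
      omega

theorem q_adj {i j : Fin m} {s : ℕ} (hs : s + 1 < 2 * k + 2) :
    (theta m k).Adj (q i j s) (q i j (s + 1)) := by
  unfold q
  by_cases h1 : s + 1 ≤ k + 1
  · rw [if_pos (by omega), if_pos h1]
    exact theta_adj i (by omega)
  · rw [if_neg h1]
    by_cases h2 : s ≤ k + 1
    · rw [if_pos h2]
      have h3 : s = k + 1 := by omega
      subst h3
      rw [pt_last i, ← pt_last (k := k) j]
      have h4 : 2 * k + 2 - (k + 1 + 1) = k := by omega
      rw [h4]
      exact (theta_adj j le_rfl).symm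
    · rw [if_neg h2]
      have h3 : 2 * k + 2 - s = (2 * k + 2 - (s + 1)) + 1 := by omega
      rw [h3]
      exact (theta_adj j (by omega)).symm

theorem q_close {i j : Fin m} (hk : 1 ≤ k) :
    (theta m k).Adj (q i j (2 * k + 1)) (q i j 0) := by
  unfold q
  rw [if_neg (by omega), if_pos (by omega), pt_zero i, ← pt_zero (k := k) j]
  have h : 2 * k + 2 - (2 * k + 1) = 0 + 1 := by omega
  rw [h]
  exact (theta_adj j (by omega)).symm

theorem q_pos_left {i j : Fin m} {a : ℕ} (ha : a ≤ k + 1) : (q i j a : TV m k) = pt i a := by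
  unfold q; rw [if_pos ha]

theorem q_pos_right {i j : Fin m} {b : ℕ} (hb : b ≤ k + 1) :
    ∃ t, t < 2 * k + 2 ∧ (q i j t : TV m k) = pt j b := by
  rcases pt_cases hb with rfl | ⟨h1, h2⟩ | rfl
  · exact ⟨0, by omega, by rw [q_pos_left (by omega), pt_zero, pt_zero]⟩
  · refine ⟨2 * k + 2 - b, by omega, ?_⟩
    unfold q
    rw [if_neg (by omega)]
    congr 1
    omega
  · exact ⟨k + 1, by omega, by rw [q_pos_left le_rfl, pt_last, pt_last]⟩

/-- a nonempty set of minimum degree two has at least `2k+2` vertices -/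
theorem core_card (hk : 1 ≤ k) (S : Finset (TV m k)) (hne : S.Nonempty)
    (hS : ∀ v ∈ S, ∃ x ∈ S, ∃ y ∈ S, x ≠ y ∧ (theta m k).Adj v x ∧ (theta m k).Adj v y) :
    2 * k + 2 ≤ S.card := by
  classical
  -- both neighbours of an inner vertex are in S
  have hmid : ∀ (i : Fin m) (a : ℕ), 1 ≤ a → a ≤ k → (pt i a : TV m k) ∈ S →
      (pt i (a - 1) : TV m k) ∈ S ∧ (pt i (a + 1) : TV m k) ∈ S := by
    intro i a h1 h2 hmem
    obtain ⟨x, hx, y, hy, hxy, hax, hay⟩ := hS _ hmem
    rcases nbr_mid h1 h2 hax with rfl | rfl <;> rcases nbr_mid h1 h2 hay with rfl | rfl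
    · exact absurd rfl hxy
    · exact ⟨hx, hy⟩
    · exact ⟨hy, hx⟩
    · exact absurd rfl hxy
  have hup : ∀ (i : Fin m) (a : ℕ), 1 ≤ a → a ≤ k → (pt i a : TV m k) ∈ S →
      ∀ d, a + d ≤ k + 1 → (pt i (a + d) : TV m k) ∈ S := by
    intro i a h1 h2 hmem d
    induction d with
    | zero => intro _; exact hmem
    | succ d ih =>
      intro hd
      have := ih (by omega)
      exact (hmid i (a + d) (by omega) (by omega) this).2
  have hdown : ∀ (i : Fin m) (a : ℕ), 1 ≤ a → a ≤ k → (pt i a : TV m k) ∈ S →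
      ∀ d, d ≤ a → (pt i (a - d) : TV m k) ∈ S := by
    intro i a h1 h2 hmem d
    induction d with
    | zero => intro _; exact hmem
    | succ d ih =>
      intro hd
      have := ih (by omega)
      have h3 := (hmid i (a - d) (by omega) (by omega) this).1
      have h4 : a - (d + 1) = a - d - 1 := by omega
      rw [h4]; exact h3
  have hall : ∀ (i : Fin m) (a : ℕ), 1 ≤ a → a ≤ k → (pt i a : TV m k) ∈ S →
      ∀ b, b ≤ k + 1 → (pt i b : TV m k) ∈ S := by
    intro i a h1 h2 hmem b hb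
    rcases le_total a b with h | h
    · have := hup i a h1 h2 hmem (b - a) (by omega)
      rwa [show a + (b - a) = b by omega] at this
    · have := hdown i a h1 h2 hmem (a - b) (by omega)
      rwa [show a - (a - b) = b by omega] at this
  -- an inner vertex in S
  obtain ⟨i, a, h1, h2, hmem⟩ : ∃ (i : Fin m) (a : ℕ), 1 ≤ a ∧ a ≤ k ∧ (pt i a : TV m k) ∈ S := by
    obtain ⟨v, hv⟩ := hne
    rcases v with b | ⟨i, a⟩
    · obtain ⟨x, hx, _, _, _, hax, _⟩ := hS _ hv
      cases b with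
      | false =>
        obtain ⟨j, rfl⟩ := nbr_zero hax
        exact ⟨j, 1, le_rfl, hk, hx⟩
      | true =>
        obtain ⟨j, rfl⟩ := nbr_last hax
        exact ⟨j, k, hk, le_rfl, hx⟩
    · refine ⟨i, a.val + 1, by omega, by omega, ?_⟩
      rw [pt_mid i (by omega) (by omega)]
      simpa using hv
  have h0 := hall i a h1 h2 hmem 0 (by omega)
  obtain ⟨x, hx, y, hy, hxy, hax, hay⟩ := hS _ h0
  rw [pt_zero] at hax hay
  obtain ⟨i1, rfl⟩ := nbr_zero hax
  obtain ⟨i2, rfl⟩ := nbr_zero hay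
  have hi : i1 ≠ i2 := fun h => hxy (by rw [h])
  have hsub : (Finset.range (2 * k + 2)).image (q i1 i2) ⊆ S := by
    intro v hv
    obtain ⟨s, hs, rfl⟩ := Finset.mem_image.1 hv
    rw [Finset.mem_range] at hs
    unfold q
    by_cases h : s ≤ k + 1
    · rw [if_pos h]; exact hall i1 1 le_rfl hk hx s h
    · rw [if_neg h]; exact hall i2 1 le_rfl hk hy _ (by omega)
  have := Finset.card_le_card hsub
  rwa [Finset.card_image_of_injOn (fun s hs t ht hst => q_inj hi
    (Finset.mem_range.1 (Finset.mem_coe.1 hs)) (Finset.mem_range.1 (Finset.mem_coe.1 ht)) hst),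
    Finset.card_range] at this

theorem theta_sat (hk : 2 ≤ k) (hm : 2 ≤ m) : IsSat (Set.Icc 4 (2 * k + 1)) (theta m k) := by
  classical
  refine ⟨?_, ?_⟩
  · rintro l ⟨hl1, hl2⟩ ⟨f⟩
    have hS := core_card (m := m) (k := k) (by omega) (Finset.univ.image (fun u => f.toHom u))
      ⟨f.toHom ⟨0, by omega⟩, Finset.mem_image.2 ⟨_, Finset.mem_univ _, rfl⟩⟩ (by
        intro v hv
        obtain ⟨u, _, rfl⟩ := Finset.mem_image.1 hv
        obtain ⟨x, y, h1, h2, h3⟩ := two_nbrs (by omega) f u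
        exact ⟨f.toHom x, Finset.mem_image.2 ⟨x, Finset.mem_univ _, rfl⟩, f.toHom y,
          Finset.mem_image.2 ⟨y, Finset.mem_univ _, rfl⟩, h1, h2, h3⟩)
    have h2 : (Finset.univ.image (fun u : Fin l => f.toHom u)).card ≤ l := by
      refine le_trans Finset.card_image_le ?_
      rw [Finset.card_univ, Fintype.card_fin]
    omega
  · -- two vertices at positions s < t of a long cycle
    have main : ∀ (i j : Fin m), i ≠ j → ∀ s t, s < t → t < 2 * k + 2 →
        ¬ (theta m k).Adj (q i j s) (q i j t) →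
        ∃ l ∈ Set.Icc 4 (2 * k + 1), cycleGraph l ⊑ ((theta m k) ⊔ edge (q i j s) (q i j t)) := by
      intro i j hij s t hst ht hna
      have hne : (q i j s : TV m k) ≠ q i j t := fun h => by
        have := q_inj hij (by omega) ht h
        omega
      have h1 : t ≠ s + 1 := by
        rintro rfl
        exact hna (q_adj ht)
      rcases Nat.lt_or_ge (s + 2) t with h2 | h2
      · -- inner arc
        have h3 : t - s + 1 ≤ 2 * k + 1 := by
          by_contra h3
          have hs0 : s = 0 := by omega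
          have ht0 : t = 2 * k + 1 := by omega
          subst hs0; subst ht0
          exact hna (q_close (by omega)).symm
        refine ⟨t - s + 1, ⟨by omega, h3⟩, ?_⟩
        refine cycle_of_path (fun u => q i j (s + u)) ?_ ?_ rfl ?_ hne
        · intro u v hu hv huv
          have := q_inj hij (by omega) (by omega) huv
          omega
        · intro u hu
          exact q_adj (by omega)
        · show q i j (s + (t - s + 1 - 1)) = q i j t
          congr 1; omega
      · -- outer arc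
        have h3 : t = s + 2 := by omega
        subst h3
        refine ⟨2 * k + 1, ⟨by omega, le_rfl⟩, ?_⟩
        have hcomm : edge (q i j s : TV m k) (q i j (s + 2)) = edge (q i j (s + 2)) (q i j s) := by
          ext x y
          rw [edge_adj, edge_adj]
          tauto
        rw [hcomm]
        have hmod : ∀ u, (s + 2 + u) % (2 * k + 2) < 2 * k + 2 := fun u => Nat.mod_lt _ (by omega)
        refine cycle_of_path (fun u => q i j ((s + 2 + u) % (2 * k + 2))) ?_ ?_ ?_ ?_ hne.symm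
        · intro u v hu hv huv
          have h4 := q_inj hij (hmod u) (hmod v) huv
          have h5 : s + 2 + u ≡ s + 2 + v [MOD 2 * k + 2] := h4
          have h6 : u ≡ v [MOD 2 * k + 2] := Nat.ModEq.add_left_cancel' _ h5
          have h7 : u % (2 * k + 2) = v % (2 * k + 2) := h6
          rwa [Nat.mod_eq_of_lt (by omega), Nat.mod_eq_of_lt (by omega)] at h7
        · intro u hu
          show (theta m k).Adj (q i j ((s + 2 + u) % (2 * k + 2)))
            (q i j ((s + 2 + (u + 1)) % (2 * k + 2)))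
          have h4 : (s + 2 + (u + 1)) % (2 * k + 2) =
              ((s + 2 + u) % (2 * k + 2) + 1) % (2 * k + 2) := by
            rw [Nat.mod_add_mod]; congr 1
          rw [h4]
          have h5 := hmod u
          rcases Nat.lt_or_ge ((s + 2 + u) % (2 * k + 2) + 1) (2 * k + 2) with h6 | h6
          · rw [Nat.mod_eq_of_lt h6]
            exact q_adj h6
          · have h7 : (s + 2 + u) % (2 * k + 2) = 2 * k + 1 := by omega
            rw [h7, Nat.mod_self]
            exact q_close (by omega)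
        · show q i j ((s + 2 + 0) % (2 * k + 2)) = q i j (s + 2)
          rw [Nat.add_zero, Nat.mod_eq_of_lt (by omega)]
        · show q i j ((s + 2 + (2 * k + 1 - 1)) % (2 * k + 2)) = q i j s
          have h4 : s + 2 + (2 * k + 1 - 1) = s + (2 * k + 2) := by omega
          rw [h4, Nat.add_mod_right, Nat.mod_eq_of_lt (by omega)]
    have main' : ∀ (i j : Fin m), i ≠ j → ∀ s t, s < 2 * k + 2 → t < 2 * k + 2 → s ≠ t →
        ¬ (theta m k).Adj (q i j s) (q i j t) →
        ∃ l ∈ Set.Icc 4 (2 * k + 1), cycleGraph l ⊑ ((theta m k) ⊔ edge (q i j s) (q i j t)) := by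
      intro i j hij s t hs ht hst hna
      rcases Nat.lt_or_gt_of_ne hst with h | h
      · exact main i j hij s t h ht hna
      · obtain ⟨l, hl, hc⟩ := main i j hij t s h hs (fun h' => hna h'.symm)
        refine ⟨l, hl, ?_⟩
        have hcomm : edge (q i j s : TV m k) (q i j t) = edge (q i j t) (q i j s) := by
          ext x y
          rw [edge_adj, edge_adj]
          tauto
        rw [hcomm]
        exact hc
    intro x y hxy hna
    obtain ⟨i, a, ha, rfl⟩ := exists_pt ⟨0, by omega⟩ x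
    obtain ⟨j, b, hb, rfl⟩ := exists_pt ⟨0, by omega⟩ y
    by_cases hij : i = j
    · subst hij
      obtain ⟨j', hj'⟩ : ∃ j' : Fin m, i ≠ j' := by
        by_cases h : i = ⟨0, by omega⟩
        · refine ⟨⟨1, by omega⟩, ?_⟩
          rw [h]; intro h'; rw [Fin.mk.injEq] at h'; omega
        · exact ⟨_, h⟩
      have h1 := main' i j' hj' a b (by omega) (by omega) (fun h => hxy (by rw [h]))
      rw [q_pos_left ha, q_pos_left hb] at h1
      exact h1 hna
    · obtain ⟨t, ht, hqt⟩ := q_pos_right (i := i) (j := j) hb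
      have h1 := main' i j hij a t (by omega) ht (by
        rintro rfl
        refine hxy ?_
        rw [← hqt, q_pos_left ha])
      rw [q_pos_left ha, hqt] at h1
      exact h1 hna

theorem theta_edges : Nat.card (theta m k).edgeSet ≤ (k + 1) * m := by
  classical
  have hsub : (theta m k).edgeSet ⊆
      ((Finset.univ : Finset (Fin m × Fin (k + 1))).image
        (fun p => s(pt p.1 p.2.val, pt p.1 (p.2.val + 1))) : Finset (Sym2 (TV m k))) := by
    intro e he
    induction e using Sym2.ind with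
    | _ x y =>
      rw [SimpleGraph.mem_edgeSet] at he
      obtain ⟨i, a, ha, h⟩ := he
      refine Finset.mem_coe.2 (Finset.mem_image.2 ⟨(i, ⟨a, by omega⟩), Finset.mem_univ _, ?_⟩)
      rcases h with ⟨rfl, rfl⟩ | ⟨rfl, rfl⟩
      · rfl
      · exact Sym2.eq_swap
  have h1 : Nat.card (theta m k).edgeSet ≤ _ :=
    Nat.card_mono (Finset.finite_toSet _) hsub
  refine le_trans h1 ?_
  rw [Nat.card_coe_set_eq, Set.ncard_coe_finset]
  refine le_trans Finset.card_image_le ?_
  rw [Finset.card_univ, Fintype.card_prod, Fintype.card_fin, Fintype.card_fin, mul_comm]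

end theta

theorem sat_le (k m : ℕ) (hk : 2 ≤ k) (hm : 2 ≤ m) :
    sat (k * m + 2) (Set.Icc 4 (2 * k + 1)) ≤ (k + 1) * m := by
  refine le_trans (Nat.sInf_le ⟨TV m k, inferInstance, theta m k, ?_, theta_sat hk hm, rfl⟩)
    theta_edges
  rw [Fintype.card_sum, Fintype.card_prod, Fintype.card_bool, Fintype.card_fin, Fintype.card_fin]
  ring

theorem sat_lt (k m : ℕ) (hk : 4 ≤ k) (hm : 2 ≤ m) :
    (sat (k * m + 2) (Set.Icc 4 (2 * k + 1)) : ℤ) <
      ⌈(5 * ((k * m + 2 : ℕ) : ℚ) / 4 - 3 / 2 : ℚ)⌉ := by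
  rw [Int.lt_ceil]
  have h1 := sat_le k m (by omega) hm
  have h2 : ((sat (k * m + 2) (Set.Icc 4 (2 * k + 1)) : ℕ) : ℚ) ≤ (k + 1) * m := by
    exact_mod_cast h1
  have h3 : (4 : ℚ) * m ≤ k * m := by
    exact_mod_cast Nat.mul_le_mul_right m hk
  push_cast
  linarith

/-- **Result.**  Q1 is false.  For all `k, m ≥ 2` the theta graph shows
`sat(km+2, C_[4,2k+1]) ≤ (k+1)m`; hence for every odd `r ≥ 9` the formula `⌈5n/4 - 3/2⌉` fails
(is too large) for infinitely many `n`, and for every odd `r ≥ 11` it fails by an arbitrarily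
large amount. -/
theorem result :
    (∀ k m : ℕ, 2 ≤ k → 2 ≤ m → sat (k * m + 2) (Set.Icc 4 (2 * k + 1)) ≤ (k + 1) * m) ∧
    (∀ r : ℕ, 9 ≤ r → Odd r → ∀ N : ℕ, ∃ n ≥ N,
      (sat n (Set.Icc 4 r) : ℤ) < ⌈(5 * (n : ℚ) / 4 - 3 / 2 : ℚ)⌉) ∧
    (∀ r : ℕ, 11 ≤ r → Odd r → ∀ C N : ℕ, ∃ n ≥ N,
      (sat n (Set.Icc 4 r) : ℤ) + C < ⌈(5 * (n : ℚ) / 4 - 3 / 2 : ℚ)⌉) ∧
    ¬ (∀ r : ℕ, 5 ≤ r → ∃ n0 : ℕ, ∀ n : ℕ, n0 ≤ n →
      (sat n (Set.Icc 4 r) : ℤ) = ⌈(5 * (n : ℚ) / 4 - 3 / 2 : ℚ)⌉) := by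
  have h9 : ∀ r : ℕ, 9 ≤ r → Odd r → ∀ N : ℕ, ∃ n ≥ N,
      (sat n (Set.Icc 4 r) : ℤ) < ⌈(5 * (n : ℚ) / 4 - 3 / 2 : ℚ)⌉ := by
    intro r hr hodd N
    obtain ⟨k, rfl⟩ := hodd
    refine ⟨k * (N + 2) + 2, ?_, sat_lt k (N + 2) (by omega) (by omega)⟩
    have : 1 * (N + 2) ≤ k * (N + 2) := Nat.mul_le_mul_right _ (by omega)
    omega
  refine ⟨sat_le, h9, ?_, ?_⟩
  · intro r hr hodd C N
    obtain ⟨k, rfl⟩ := hodd
    have hk : 5 ≤ k := by omega
    refine ⟨k * (4 * C + N + 2) + 2, ?_, ?_⟩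
    · have : 1 * (4 * C + N + 2) ≤ k * (4 * C + N + 2) := Nat.mul_le_mul_right _ (by omega)
      omega
    · rw [Int.lt_ceil]
      have h1 := sat_le k (4 * C + N + 2) (by omega) (by omega)
      have h2 : ((sat (k * (4 * C + N + 2) + 2) (Set.Icc 4 (2 * k + 1)) : ℕ) : ℚ) ≤
          (k + 1) * (4 * C + N + 2) := by exact_mod_cast h1
      have h3 : (5 : ℚ) * (4 * C + N + 2) ≤ k * (4 * C + N + 2) := by
        exact_mod_cast Nat.mul_le_mul_right (4 * C + N + 2) hk
      have h4 : (0 : ℚ) ≤ N := Nat.cast_nonneg N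
      push_cast
      linarith
  · intro h
    obtain ⟨n0, hn0⟩ := h 9 (by norm_num)
    obtain ⟨n, hn, hlt⟩ := h9 9 le_rfl (by decide) n0
    exact absurd (hn0 n hn) (ne_of_lt hlt)

end Pool.Agent.Results.MP_50682e_co.ThetaGraphs
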